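import Pool.Agent.Work.MP_a5099b_nt.R.Fin

/-!
# Module EL/Cj: Elkies' theorem when some conjugate of the invariant is real
-/

set_option autoImplicit false

namespace Pool.Agent.SS.EL

open NumberField IsDedekindDomain

private theorem curve_id {R : Type*} [CommRing R] (c d : R) :
    let W : WeierstrassCurve R := ⟨0, 0, 0, 3 * c * (1728 * d - c) * d ^ 2,
      2 * c * (1728 * d - c) ^ 2 * d ^ 3⟩
    W.c₄ ^ 3 * d = c * W.Δ ∧
      W.Δ = -(16 * 108 * 1728) * (c ^ 2 * (1728 * d - c) ^ 3 * d ^ 7) := by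
  intro W
  constructor
  · simp only [W, WeierstrassCurve.c₄, WeierstrassCurve.Δ, WeierstrassCurve.b₂,
      WeierstrassCurve.b₄, WeierstrassCurve.b₆, WeierstrassCurve.b₈]
    ring
  · simp only [W, WeierstrassCurve.Δ, WeierstrassCurve.b₂,
      WeierstrassCurve.b₄, WeierstrassCurve.b₆, WeierstrassCurve.b₈]
    ring

private theorem exists_curve {R : Type*} [CommRing R] [IsDomain R] [CharZero R] (c d : R)
    (hd : d ≠ 0) : ∃ W : WeierstrassCurve R, W.Δ ≠ 0 ∧ W.c₄ ^ 3 * d = c * W.Δ := by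
  by_cases hc : c = 0
  · refine ⟨⟨0, 0, 0, 0, 1⟩, ?_, ?_⟩
    · have h1 : (⟨0, 0, 0, 0, 1⟩ : WeierstrassCurve R).Δ = -432 := by
        simp only [WeierstrassCurve.Δ, WeierstrassCurve.b₂,
          WeierstrassCurve.b₄, WeierstrassCurve.b₆, WeierstrassCurve.b₈]
        ring
      rw [h1]
      norm_num
    · subst hc
      simp only [WeierstrassCurve.c₄, WeierstrassCurve.b₂, WeierstrassCurve.b₄]
      ring
  by_cases he : 1728 * d - c = 0
  · refine ⟨⟨0, 0, 0, 1, 0⟩, ?_, ?_⟩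
    · have h1 : (⟨0, 0, 0, 1, 0⟩ : WeierstrassCurve R).Δ = -64 := by
        simp only [WeierstrassCurve.Δ, WeierstrassCurve.b₂,
          WeierstrassCurve.b₄, WeierstrassCurve.b₆, WeierstrassCurve.b₈]
        ring
      rw [h1]
      norm_num
    · have hc' : c = 1728 * d := (sub_eq_zero.1 he).symm
      subst hc'
      simp only [WeierstrassCurve.c₄, WeierstrassCurve.Δ, WeierstrassCurve.b₂,
        WeierstrassCurve.b₄, WeierstrassCurve.b₆, WeierstrassCurve.b₈]
      ring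
  · obtain ⟨hid1, hid2⟩ := curve_id c d
    refine ⟨_, ?_, hid1⟩
    rw [hid2]
    refine mul_ne_zero ?_ (mul_ne_zero (mul_ne_zero (pow_ne_zero _ hc) (pow_ne_zero _ he))
      (pow_ne_zero _ hd))
    norm_num

variable {K : Type} [Field K] [NumberField K]

/-- The subfield of the elements with real image. -/
private noncomputable def rk (σ : K →+* ℂ) : IntermediateField ℚ K :=
  (Complex.ofRealHom.fieldRange.comap σ).toIntermediateField fun q => by
    refine ⟨(q : ℝ), ?_⟩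
    simp

private theorem mem_rk (σ : K →+* ℂ) (x : K) : x ∈ rk σ ↔ (σ x).im = 0 := by
  constructor
  · rintro ⟨r, hr⟩
    rw [← hr]
    simp
  · intro h
    refine ⟨(σ x).re, ?_⟩
    apply Complex.ext
    · simp
    · simp [h]

/-- The real embedding of this subfield. -/
private noncomputable def rr (σ : K →+* ℂ) : rk σ →+* ℝ where
  toFun x := (σ (x : K)).re
  map_one' := by simp
  map_zero' := by simp
  map_add' x y := by simp
  map_mul' x y := by
    have hx := (mem_rk σ _).1 x.2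
    have hy := (mem_rk σ _).1 y.2
    simp [hx, hy]

/-- Elkies' theorem: if some conjugate of the invariant is real, the reduction is supersingular at
infinitely many places. -/
theorem elkies_conj (W : WeierstrassCurve (𝓞 K)) (hW : W.Δ ≠ 0) (σ : K →+* ℂ)
    (hσ : (σ ((W.c₄ : K) ^ 3 / (W.Δ : K))).im = 0) :
    {v : HeightOneSpectrum (𝓞 K) | SSRed W v}.Infinite := by
  classical
  let jw : K := (W.c₄ : K) ^ 3 / (W.Δ : K)
  have hjk : jw ∈ rk σ := (mem_rk σ _).2 hσ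
  let k := rk σ
  let j₀ : k := ⟨jw, hjk⟩
  obtain ⟨c, d, hd, hcd⟩ := IsFractionRing.div_surjective (A := 𝓞 k) j₀
  have hd0 : d ≠ 0 := nonZeroDivisors.ne_zero hd
  have hd0' : (algebraMap (𝓞 k) k d) ≠ 0 := by
    rw [Ne, FaithfulSMul.algebraMap_eq_zero_iff (𝓞 k) k]
    exact hd0
  obtain ⟨W₀, hΔ0, hid1⟩ := exists_curve c d hd0
  have hΔ0' : algebraMap (𝓞 k) k W₀.Δ ≠ 0 := by
    rw [Ne, FaithfulSMul.algebraMap_eq_zero_iff (𝓞 k) k]
    exact hΔ0
  have hjay : algebraMap (𝓞 k) k W₀.c₄ ^ 3 / algebraMap (𝓞 k) k W₀.Δ = j₀ := by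
    rw [← hcd, div_eq_div_iff hΔ0' hd0', ← map_pow, ← map_mul, ← map_mul, hid1]
  refine ZI.inf_up (k := k) hW ?_ (RK.elkies (rr σ) W₀ hΔ0)
  apply FaithfulSMul.algebraMap_injective (𝓞 K) K
  have hΔK : algebraMap (𝓞 K) K W.Δ ≠ 0 := by
    rw [Ne, FaithfulSMul.algebraMap_eq_zero_iff (𝓞 K) K]
    exact hW
  have hcomm : ∀ x : 𝓞 k, algebraMap (𝓞 K) K (algebraMap (𝓞 k) (𝓞 K) x) =
      algebraMap k K (algebraMap (𝓞 k) k x) := fun x => rfl
  have hjW : jw * algebraMap (𝓞 K) K W.Δ = algebraMap (𝓞 K) K W.c₄ ^ 3 := by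
    have h1 : jw = algebraMap (𝓞 K) K W.c₄ ^ 3 / algebraMap (𝓞 K) K W.Δ := rfl
    rw [h1, div_mul_cancel₀ _ hΔK]
  have hj0 : algebraMap k K j₀ = jw := rfl
  have hj1 : jw * algebraMap k K (algebraMap (𝓞 k) k W₀.Δ) =
      algebraMap k K (algebraMap (𝓞 k) k (W₀.c₄ ^ 3)) := by
    rw [← hj0, ← hjay, ← map_mul]
    congr 1
    rw [div_mul_cancel₀ _ hΔ0', map_pow]
  rw [map_mul, map_mul, hcomm, hcomm, ← hj1, map_pow, ← hjW]
  ring

end Pool.Agent.SS.EL
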