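import Pool.Agent.Work.MP_022f22_nt.EL.Pts
import Pool.Agent.Work.MP_a5099b_nt.J.Stmt

/-!
# Module EL/Loc: from `SSRed` to a model over the valuation ring without points of order `p`
-/

set_option autoImplicit false

namespace Pool.Agent.SS.EL

open NumberField IsDedekindDomain

variable {K : Type} [Field K] [NumberField K]

private theorem val_unit (v : HeightOneSpectrum (𝓞 K)) {x : K} (hx : v.valuation K x = 1) :
    ∃ h : x ∈ (v.valuation K).valuationSubring,
      IsUnit (⟨x, h⟩ : (v.valuation K).valuationSubring) := by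
  have h : x ∈ (v.valuation K).valuationSubring := by
    rw [Valuation.mem_valuationSubring_iff, hx]
  have hx0 : x ≠ 0 := by
    rintro rfl
    rw [map_zero] at hx
    exact zero_ne_one hx
  have h' : x⁻¹ ∈ (v.valuation K).valuationSubring := by
    rw [Valuation.mem_valuationSubring_iff, map_inv₀, hx, inv_one]
  refine ⟨h, IsUnit.of_mul_eq_one ⟨x⁻¹, h'⟩ ?_⟩
  apply Subtype.ext
  exact mul_inv_cancel₀ hx0

private theorem val_max (v : HeightOneSpectrum (𝓞 K)) {x : (v.valuation K).valuationSubring}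
    (hx : v.valuation K (x : K) < 1) : x ∈ IsLocalRing.maximalIdeal (v.valuation K).valuationSubring := by
  rw [IsLocalRing.mem_maximalIdeal, mem_nonunits_iff]
  intro hu
  obtain ⟨y, hy⟩ := hu.exists_right_inv
  have h1 : (x : K) * (y : K) = 1 := congrArg Subtype.val hy
  have h2 : v.valuation K (x : K) * v.valuation K (y : K) = 1 := by
    rw [← map_mul, h1, map_one]
  have h3 : v.valuation K (y : K) ≤ 1 := (Valuation.mem_valuationSubring_iff _ _).1 y.2
  have h4 : v.valuation K (x : K) * v.valuation K (y : K) ≤ v.valuation K (x : K) * 1 :=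
    mul_le_mul_right h3 _
  rw [h2, mul_one] at h4
  exact absurd hx (not_lt.2 h4)

/-- The ring homomorphism from the integers to the valuation ring. -/
private noncomputable def io (v : HeightOneSpectrum (𝓞 K)) :
    𝓞 K →+* (v.valuation K).valuationSubring :=
  (algebraMap (𝓞 K) K).codRestrict (v.valuation K).valuationSubring fun x =>
    (Valuation.mem_valuationSubring_iff _ _).2 (v.valuation_le_one x)

private theorem io_coe (v : HeightOneSpectrum (𝓞 K)) (x : 𝓞 K) :
    ((io v x : (v.valuation K).valuationSubring) : K) = (x : K) := rfl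

/-- The ring homomorphism between the residue fields. -/
private noncomputable def ph (v : HeightOneSpectrum (𝓞 K)) :
    𝓞 K ⧸ v.asIdeal →+* IsLocalRing.ResidueField (v.valuation K).valuationSubring :=
  Ideal.Quotient.lift v.asIdeal ((IsLocalRing.residue _).comp (io v)) fun x hx => by
    rw [RingHom.comp_apply, IsLocalRing.residue_eq_zero_iff]
    apply val_max
    rw [io_coe]
    exact (v.valuation_lt_one_iff_mem x).2 hx

private theorem ph_mk (v : HeightOneSpectrum (𝓞 K)) (x : 𝓞 K) :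
    ph v (Ideal.Quotient.mk v.asIdeal x) = IsLocalRing.residue _ (io v x) := rfl

private theorem ph_surj (v : HeightOneSpectrum (𝓞 K)) : Function.Surjective (ph v) := by
  intro y
  obtain ⟨z, rfl⟩ := IsLocalRing.residue_surjective y
  obtain ⟨a, ha⟩ := v.exists_valuation_sub_lt_of_integer (K := K) (x := (z : K))
    ((Valuation.mem_valuationSubring_iff _ _).1 z.2) 1
  refine ⟨Ideal.Quotient.mk v.asIdeal a, ?_⟩
  rw [ph_mk, ← sub_eq_zero, ← map_sub, IsLocalRing.residue_eq_zero_iff]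
  apply val_max
  rw [Units.val_one] at ha
  exact ha

omit [NumberField K] in
private theorem charP_quot (v : HeightOneSpectrum (𝓞 K)) {p : ℕ} (hp : p.Prime)
    (hpv : (p : 𝓞 K) ∈ v.asIdeal) : CharP (𝓞 K ⧸ v.asIdeal) p := by
  have : Nontrivial (𝓞 K ⧸ v.asIdeal) := Ideal.Quotient.nontrivial_iff.mpr v.isPrime.ne_top
  have h0 : ((p : ℕ) : 𝓞 K ⧸ v.asIdeal) = 0 := by
    rw [← map_natCast (Ideal.Quotient.mk v.asIdeal)]
    exact Ideal.Quotient.eq_zero_iff_mem.mpr hpv
  exact (CharP.charP_iff_prime_eq_zero hp).mpr h0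

omit [NumberField K] in
private theorem five_le {v : HeightOneSpectrum (𝓞 K)} (h6 : (6 : 𝓞 K) ∉ v.asIdeal) {p : ℕ}
    (hp : p.Prime) (hpv : (p : 𝓞 K) ∈ v.asIdeal) : 5 ≤ p := by
  by_contra hlt
  push Not at hlt
  apply h6
  have hd : p ∣ 6 := by
    have h2 := hp.two_le
    interval_cases p
    · norm_num
    · norm_num
    · exact absurd hp (by norm_num)
  obtain ⟨c, hc⟩ := hd
  have h1 : (6 : 𝓞 K) = (p : 𝓞 K) * (c : 𝓞 K) := by
    rw [← Nat.cast_mul, ← hc]
    norm_num
  rw [h1]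
  exact Ideal.mul_mem_right _ _ hpv

/-- A place of supersingular reduction of an integral model `W₁` (scaled by `d`), not above `6 d`:
there is a model over the valuation ring with unit discriminant, whose reduction has no point of
order `p` over the algebraic closure. -/
theorem loc_out (W : WeierstrassCurve K) (W₁ : WeierstrassCurve (𝓞 K)) (d : 𝓞 K)
    (h1 : (W₁.a₁ : K) = (d : K) * W.a₁) (h2 : (W₁.a₂ : K) = (d : K) ^ 2 * W.a₂)
    (h3 : (W₁.a₃ : K) = (d : K) ^ 3 * W.a₃) (h4 : (W₁.a₄ : K) = (d : K) ^ 4 * W.a₄)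
    (h6 : (W₁.a₆ : K) = (d : K) ^ 6 * W.a₆) (v : HeightOneSpectrum (𝓞 K))
    (hd : d ∉ v.asIdeal) (h6v : (6 : 𝓞 K) ∉ v.asIdeal) (hss : SSRed W₁ v) :
    ∃ W₀ : WeierstrassCurve (v.valuation K).valuationSubring,
      W₀.map (algebraMap _ K) = W ∧ IsUnit W₀.Δ ∧
      ∀ P : ((W₀.map (IsLocalRing.residue (v.valuation K).valuationSubring)).baseChange
        (AlgebraicClosure (IsLocalRing.ResidueField
          (v.valuation K).valuationSubring))).toAffine.Point,
      letI := Classical.decEq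
        (AlgebraicClosure (IsLocalRing.ResidueField (v.valuation K).valuationSubring))
      (ringChar (IsLocalRing.ResidueField (v.valuation K).valuationSubring)) • P = 0 → P = 0 := by
  classical
  obtain ⟨hΔ, p, hp, hpv, hcard⟩ := hss
  have h5 : 5 ≤ p := five_le h6v hp hpv
  have hvd : v.valuation K (d : K) = 1 := by
    have ha : v.valuation K (d : K) ≤ 1 := v.valuation_le_one d
    refine le_antisymm ha (not_lt.1 fun hlt => hd ?_)
    exact (v.valuation_lt_one_iff_mem d).1 hlt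
  have hd0 : (d : K) ≠ 0 := by
    intro h0
    rw [h0, map_zero] at hvd
    exact zero_ne_one hvd
  have hmem : ∀ (n : ℕ) (a : K) (b : 𝓞 K), (b : K) = (d : K) ^ n * a →
      a ∈ (v.valuation K).valuationSubring := by
    intro n a b hab
    rw [Valuation.mem_valuationSubring_iff]
    have hb : v.valuation K (b : K) ≤ 1 := v.valuation_le_one b
    rw [hab, map_mul, map_pow, hvd, one_pow, one_mul] at hb
    exact hb
  have m1 := hmem 1 W.a₁ W₁.a₁ (by rw [h1, pow_one])
  have m2 := hmem 2 W.a₂ W₁.a₂ h2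
  have m3 := hmem 3 W.a₃ W₁.a₃ h3
  have m4 := hmem 4 W.a₄ W₁.a₄ h4
  have m6 := hmem 6 W.a₆ W₁.a₆ h6
  let R := (v.valuation K).valuationSubring
  let W₀ : WeierstrassCurve R := ⟨⟨_, m1⟩, ⟨_, m2⟩, ⟨_, m3⟩, ⟨_, m4⟩, ⟨_, m6⟩⟩
  have hmap : W₀.map (algebraMap R K) = W := by
    ext <;> rfl
  have e1 : io v W₁.a₁ = io v d * W₀.a₁ := Subtype.ext h1
  have e2 : io v W₁.a₂ = io v d ^ 2 * W₀.a₂ := Subtype.ext h2
  have e3 : io v W₁.a₃ = io v d ^ 3 * W₀.a₃ := Subtype.ext h3
  have e4 : io v W₁.a₄ = io v d ^ 4 * W₀.a₄ := Subtype.ext h4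
  have e6 : io v W₁.a₆ = io v d ^ 6 * W₀.a₆ := Subtype.ext h6
  have hc4 : io v W₁.c₄ = io v d ^ 4 * W₀.c₄ := by
    simp only [WeierstrassCurve.c₄, WeierstrassCurve.b₂, WeierstrassCurve.b₄, map_sub, map_add,
      map_mul, map_pow, map_ofNat, e1, e2, e3, e4]
    ring
  have hDe : io v W₁.Δ = io v d ^ 12 * W₀.Δ := by
    simp only [WeierstrassCurve.Δ, WeierstrassCurve.b₂, WeierstrassCurve.b₄, WeierstrassCurve.b₆,
      WeierstrassCurve.b₈, map_sub, map_add, map_neg,
      map_mul, map_pow, map_ofNat, e1, e2, e3, e4, e6]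
    ring
  have hvD : v.valuation K (W₁.Δ : K) = 1 := by
    have ha : v.valuation K (W₁.Δ : K) ≤ 1 := v.valuation_le_one W₁.Δ
    refine le_antisymm ha (not_lt.1 fun hlt => hΔ ?_)
    exact (v.valuation_lt_one_iff_mem W₁.Δ).1 hlt
  have huD : IsUnit (io v W₁.Δ) := by
    obtain ⟨h, hu⟩ := val_unit v hvD
    exact hu
  have hud : IsUnit (io v d) := by
    obtain ⟨h, hu⟩ := val_unit v hvd
    exact hu
  have hunit : IsUnit W₀.Δ := by
    rw [hDe] at huD
    exact isUnit_of_mul_isUnit_right huD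
  refine ⟨W₀, hmap, hunit, ?_⟩
  let _ : Field (𝓞 K ⧸ v.asIdeal) := Ideal.Quotient.field v.asIdeal
  have hcp : CharP (𝓞 K ⧸ v.asIdeal) p := charP_quot v hp hpv
  have hfin : Finite (𝓞 K ⧸ v.asIdeal) := Ideal.finiteQuotientOfFreeOfNeBot v.asIdeal v.ne_bot
  let _ : Fintype (𝓞 K ⧸ v.asIdeal) := Fintype.ofFinite _
  have hcp' : CharP (IsLocalRing.ResidueField R) p :=
    charP_of_injective_ringHom (ph v).injective p
  have hfin' : Finite (IsLocalRing.ResidueField R) := Finite.of_surjective _ (ph_surj v)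
  have hrc : ringChar (IsLocalRing.ResidueField R) = p := ringChar.eq _ p
  have hΔ0 : (W₁.map (Ideal.Quotient.mk v.asIdeal)).Δ ≠ 0 := by
    rw [WeierstrassCurve.map_Δ]
    exact fun h0 => hΔ (Ideal.Quotient.eq_zero_iff_mem.mp h0)
  have hs1 := (card_iff hp h5 (W₁.map (Ideal.Quotient.mk v.asIdeal)) hΔ0).1 hcard
  rw [WeierstrassCurve.map_Δ, WeierstrassCurve.map_c₄, ← map_pow] at hs1
  have hs2 := (SSj_map hp h5 (ph v) _).2 hs1
  rw [map_div₀, ph_mk, ph_mk, map_pow, hc4, hDe, map_pow, map_mul, map_mul, map_pow, map_pow] at hs2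
  have hu0 : IsLocalRing.residue R (io v d) ≠ 0 := (hud.map (IsLocalRing.residue R)).ne_zero
  have hs3 : SSj p (IsLocalRing.residue R W₀.c₄ ^ 3 / IsLocalRing.residue R W₀.Δ) := by
    convert hs2 using 1
    rw [mul_pow, ← pow_mul, mul_div_mul_left _ _ (pow_ne_zero 12 hu0)]
  intro P hP
  rw [hrc] at hP
  let _ := Classical.decEq (AlgebraicClosure (IsLocalRing.ResidueField R))
  refine no_tors hp h5 (W₀.map (IsLocalRing.residue R)) ?_ ?_ P hP
  · rw [WeierstrassCurve.map_Δ]
    exact (hunit.map (IsLocalRing.residue R)).ne_zero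
  · rw [WeierstrassCurve.map_Δ, WeierstrassCurve.map_c₄]
    exact hs3

end Pool.Agent.SS.EL
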