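import Pool.Agent.Work.MP_022f22_nt.EL.Inf
import Pool.Agent.Work.MP_022f22_nt.EL.Cj

/-!
# Module EL/Out: Elkies' theorem in the form used for the Lehmer theorem (`LH/Stp`)
-/

set_option autoImplicit false

namespace Pool.Agent.SS.EL

open NumberField IsDedekindDomain

/-- Elkies: an elliptic curve over a number field such that some conjugate of its invariant is real
has a place with a model over the valuation ring of unit discriminant whose reduction has no point
of order `p` over the algebraic closure of the residue field. -/
theorem elkies_out_conj {K : Type} [Field K] [NumberField K] (σ : K →+* ℂ)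
    (W : WeierstrassCurve K) (hW : W.Δ ≠ 0) (hσ : (σ (W.c₄ ^ 3 / W.Δ)).im = 0) :
    ∃ (v : HeightOneSpectrum (𝓞 K)) (W₀ : WeierstrassCurve (v.valuation K).valuationSubring),
      W₀.map (algebraMap _ K) = W ∧ IsUnit W₀.Δ ∧
      ∀ P : ((W₀.map (IsLocalRing.residue (v.valuation K).valuationSubring)).baseChange
        (AlgebraicClosure (IsLocalRing.ResidueField
          (v.valuation K).valuationSubring))).toAffine.Point,
      letI := Classical.decEq
        (AlgebraicClosure (IsLocalRing.ResidueField (v.valuation K).valuationSubring))
      (ringChar (IsLocalRing.ResidueField (v.valuation K).valuationSubring)) • P = 0 → P = 0 :=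
  out_of_inf W hW fun W₁ h₁ hj => elkies_conj W₁ h₁ σ (by rw [hj]; exact hσ)

/-- The same for a number field with a real place (in particular for `ℚ`). -/
theorem elkies_out {K : Type} [Field K] [NumberField K] (ρ : K →+* ℝ)
    (W : WeierstrassCurve K) (hW : W.Δ ≠ 0) :
    ∃ (v : HeightOneSpectrum (𝓞 K)) (W₀ : WeierstrassCurve (v.valuation K).valuationSubring),
      W₀.map (algebraMap _ K) = W ∧ IsUnit W₀.Δ ∧
      ∀ P : ((W₀.map (IsLocalRing.residue (v.valuation K).valuationSubring)).baseChange
        (AlgebraicClosure (IsLocalRing.ResidueField
          (v.valuation K).valuationSubring))).toAffine.Point,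
      letI := Classical.decEq
        (AlgebraicClosure (IsLocalRing.ResidueField (v.valuation K).valuationSubring))
      (ringChar (IsLocalRing.ResidueField (v.valuation K).valuationSubring)) • P = 0 → P = 0 :=
  elkies_out_conj (Complex.ofRealHom.comp ρ) W hW (Complex.ofReal_im _)

end Pool.Agent.SS.EL
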