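import Pool.Agent.Work.MP_a5099b_nt.SpecC

/-!
# Module EL/Pts: supersingular in the sense of the number of points implies no point of order `p`

`card_iff`, `SSj_map`: the number of points over every finite extension is `1` modulo `p`; every
point over the algebraic closure is defined over a finite extension.
-/

set_option autoImplicit false

namespace Pool.Agent.SS.EL

open Polynomial

private theorem tors_finite {p : ℕ} (hp : p.Prime) (h5 : 5 ≤ p) {k : Type*} [Field k] [Finite k]
    [CharP k p] (W : WeierstrassCurve k) (hW : W.Δ ≠ 0) (h : SSj p (W.c₄ ^ 3 / W.Δ))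
    [DecidableEq k] (P : W.toAffine.Point) (hP : p • P = 0) : P = 0 := by
  have _ : Fintype k := Fintype.ofFinite k
  have _ : Fact p.Prime := ⟨hp⟩
  have hc : Nat.card W.toAffine.Point ≡ 1 [MOD p] := (card_iff hp h5 W hW).2 h
  by_contra hne
  have ho : addOrderOf P = p := addOrderOf_eq_prime hP hne
  have hd : addOrderOf P ∣ Nat.card W.toAffine.Point := addOrderOf_dvd_natCard P
  rw [ho] at hd
  have h0 : Nat.card W.toAffine.Point ≡ 0 [MOD p] := (Nat.modEq_zero_iff_dvd).2 hd
  have h1 : 0 ≡ 1 [MOD p] := h0.symm.trans hc
  have h2 := (Nat.modEq_iff_dvd' (Nat.zero_le 1)).1 h1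
  exact hp.one_lt.ne' (Nat.dvd_one.1 h2)

/-- No point of order `p` over any algebraic extension of a finite field if the invariant is
supersingular. -/
theorem no_tors {p : ℕ} (hp : p.Prime) (h5 : 5 ≤ p) {k : Type*} [Field k] [Finite k]
    [CharP k p] (W : WeierstrassCurve k) (hW : W.Δ ≠ 0) (h : SSj p (W.c₄ ^ 3 / W.Δ))
    {Ω : Type*} [Field Ω] [Algebra k Ω] [Algebra.IsAlgebraic k Ω] [DecidableEq Ω]
    (P : (W.baseChange Ω).toAffine.Point) (hP : p • P = 0) : P = 0 := by
  classical
  rcases P with _ | ⟨x, y, hxy⟩
  · rfl
  · exfalso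
    let L : IntermediateField k Ω := IntermediateField.adjoin k {x, y}
    have hfin : FiniteDimensional k L := by
      apply IntermediateField.finiteDimensional_adjoin
      intro z _
      exact (Algebra.IsAlgebraic.isAlgebraic (R := k) z).isIntegral
    have hL : Finite L := Module.finite_of_finite k
    have hchar : CharP L p := charP_of_injective_algebraMap (algebraMap k L).injective p
    have hx : x ∈ L := IntermediateField.subset_adjoin k _ (by simp)
    have hy : y ∈ L := IntermediateField.subset_adjoin k _ (by simp)
    let WL : WeierstrassCurve L := W.baseChange L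
    have hn : (W.baseChange L).toAffine.Nonsingular ⟨x, hx⟩ ⟨y, hy⟩ :=
      (W.toAffine.baseChange_nonsingular (f := L.val) L.val.injective ⟨x, hx⟩ ⟨y, hy⟩).1 hxy
    let P' : (W.baseChange L).toAffine.Point := .some _ _ hn
    have hmap : WeierstrassCurve.Affine.Point.map (W' := W.toAffine) L.val P' = .some _ _ hxy := by
      rw [WeierstrassCurve.Affine.Point.map_some]
      rfl
    have hP' : p • P' = 0 := by
      apply WeierstrassCurve.Affine.Point.map_injective (W' := W.toAffine) (f := L.val)
      rw [map_nsmul, hmap, map_zero]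
      exact hP
    have hΔ : (W.baseChange L).Δ ≠ 0 := by
      rw [WeierstrassCurve.baseChange, WeierstrassCurve.map_Δ]
      exact (_root_.map_ne_zero _).2 hW
    have hss : SSj p ((W.baseChange L).c₄ ^ 3 / (W.baseChange L).Δ) := by
      rw [WeierstrassCurve.baseChange, WeierstrassCurve.map_Δ, WeierstrassCurve.map_c₄, ← map_pow,
        ← map_div₀]
      exact (SSj_map hp h5 (algebraMap k L) _).2 h
    have h0 := tors_finite hp h5 (W.baseChange L) hΔ hss P' hP'
    exact WeierstrassCurve.Affine.Point.some_ne_zero hn h0

end Pool.Agent.SS.EL
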